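import Pool.Agent.KS6_11.S.Cap

set_option autoImplicit false
set_option linter.unusedVariables false
set_option linter.unusedSectionVars false

/-!
# The number of simple quotients of type `sl₂` of a linear Lie algebra: version for spaces of matrices
-/

open Module Matrix

noncomputable section

namespace Pool.Agent.KS6_11.S

variable {B : Type} [Fintype B] [DecidableEq B] {C : Type} [Fintype C] [DecidableEq C]

/-- **The capacity.** A space `W` of pairs of an endomorphism of `ℂ^B` and a family of `2 × 2` matrices which is closed under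
commutators, whose second projection contains all traceless families, and such that the elements with vanishing first
component have scalar second components. -/
theorem cap_sub (W : Submodule ℂ (Matrix B B ℂ × (C → Matrix (Fin 2) (Fin 2) ℂ)))
    (hbr : ∀ p ∈ W, ∀ q ∈ W, (p.1 * q.1 - q.1 * p.1, fun c => p.2 c * q.2 c - q.2 c * p.2 c) ∈ W)
    (hs : ∀ w : C → Matrix (Fin 2) (Fin 2) ℂ, (∀ c, (w c).trace = 0) → ∃ y, (y, w) ∈ W)
    (hk : ∀ x : C → Matrix (Fin 2) (Fin 2) ℂ, ((0 : Matrix B B ℂ), x) ∈ W → ∀ c, ∃ a : ℂ, x c = a • 1) :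
    2 * Fintype.card C ≤ Fintype.card B := by
  letI : LieRing W :=
    { bracket := fun p q => ⟨_, hbr p.1 p.2 q.1 q.2⟩
      add_lie := fun p q r => by
        refine Subtype.ext (Prod.ext ?_ (funext fun c => ?_))
        · change (p.1.1 + q.1.1) * r.1.1 - r.1.1 * (p.1.1 + q.1.1) =
            (p.1.1 * r.1.1 - r.1.1 * p.1.1) + (q.1.1 * r.1.1 - r.1.1 * q.1.1)
          rw [Matrix.add_mul, Matrix.mul_add]
          abel
        · change (p.1.2 c + q.1.2 c) * r.1.2 c - r.1.2 c * (p.1.2 c + q.1.2 c) =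
            (p.1.2 c * r.1.2 c - r.1.2 c * p.1.2 c) + (q.1.2 c * r.1.2 c - r.1.2 c * q.1.2 c)
          rw [Matrix.add_mul, Matrix.mul_add]
          abel
      lie_add := fun p q r => by
        refine Subtype.ext (Prod.ext ?_ (funext fun c => ?_))
        · change p.1.1 * (q.1.1 + r.1.1) - (q.1.1 + r.1.1) * p.1.1 =
            (p.1.1 * q.1.1 - q.1.1 * p.1.1) + (p.1.1 * r.1.1 - r.1.1 * p.1.1)
          rw [Matrix.add_mul, Matrix.mul_add]
          abel
        · change p.1.2 c * (q.1.2 c + r.1.2 c) - (q.1.2 c + r.1.2 c) * p.1.2 c =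
            (p.1.2 c * q.1.2 c - q.1.2 c * p.1.2 c) + (p.1.2 c * r.1.2 c - r.1.2 c * p.1.2 c)
          rw [Matrix.add_mul, Matrix.mul_add]
          abel
      lie_self := fun p => by
        refine Subtype.ext (Prod.ext ?_ (funext fun c => ?_))
        · exact sub_self _
        · exact sub_self _
      leibniz_lie := fun p q r => by
        refine Subtype.ext (Prod.ext ?_ (funext fun c => ?_))
        · change p.1.1 * (q.1.1 * r.1.1 - r.1.1 * q.1.1) - (q.1.1 * r.1.1 - r.1.1 * q.1.1) * p.1.1 =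
            ((p.1.1 * q.1.1 - q.1.1 * p.1.1) * r.1.1 - r.1.1 * (p.1.1 * q.1.1 - q.1.1 * p.1.1)) +
            (q.1.1 * (p.1.1 * r.1.1 - r.1.1 * p.1.1) - (p.1.1 * r.1.1 - r.1.1 * p.1.1) * q.1.1)
          simp only [Matrix.mul_sub, Matrix.sub_mul, Matrix.mul_assoc]
          abel
        · change p.1.2 c * (q.1.2 c * r.1.2 c - r.1.2 c * q.1.2 c) - (q.1.2 c * r.1.2 c - r.1.2 c * q.1.2 c) * p.1.2 c =
            ((p.1.2 c * q.1.2 c - q.1.2 c * p.1.2 c) * r.1.2 c - r.1.2 c * (p.1.2 c * q.1.2 c - q.1.2 c * p.1.2 c)) +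
            (q.1.2 c * (p.1.2 c * r.1.2 c - r.1.2 c * p.1.2 c) - (p.1.2 c * r.1.2 c - r.1.2 c * p.1.2 c) * q.1.2 c)
          simp only [Matrix.mul_sub, Matrix.sub_mul, Matrix.mul_assoc]
          abel }
  have hb1 : ∀ p q : W, (⁅p, q⁆ : W).1.1 = p.1.1 * q.1.1 - q.1.1 * p.1.1 := fun p q => rfl
  have hb2 : ∀ (p q : W) c, (⁅p, q⁆ : W).1.2 c = p.1.2 c * q.1.2 c - q.1.2 c * p.1.2 c := fun p q c => rfl
  letI : LieAlgebra ℂ W :=
    { lie_smul := fun a p q => by
        refine Subtype.ext (Prod.ext ?_ (funext fun c => ?_))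
        · change p.1.1 * (a • q.1.1) - (a • q.1.1) * p.1.1 = a • (p.1.1 * q.1.1 - q.1.1 * p.1.1)
          rw [Matrix.mul_smul, Matrix.smul_mul, smul_sub]
        · change p.1.2 c * (a • q.1.2 c) - (a • q.1.2 c) * p.1.2 c = a • (p.1.2 c * q.1.2 c - q.1.2 c * p.1.2 c)
          rw [Matrix.mul_smul, Matrix.smul_mul, smul_sub] }
  letI : LieRingModule W (B → ℂ) :=
    { bracket := fun p v => p.1.1 *ᵥ v
      add_lie := fun p q v => Matrix.add_mulVec _ _ _
      lie_add := fun p v w => Matrix.mulVec_add _ _ _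
      leibniz_lie := fun p q v => by
        change p.1.1 *ᵥ (q.1.1 *ᵥ v) = (p.1.1 * q.1.1 - q.1.1 * p.1.1) *ᵥ v + q.1.1 *ᵥ (p.1.1 *ᵥ v)
        rw [Matrix.sub_mulVec, Matrix.mulVec_mulVec, Matrix.mulVec_mulVec, sub_add_cancel] }
  letI : LieModule ℂ W (B → ℂ) :=
    { smul_lie := fun a p v => Matrix.smul_mulVec _ _ _
      lie_smul := fun a p v => Matrix.mulVec_smul _ _ _ }
  have h := cap (L := W) (V := B → ℂ) (ι := C) (fun c =>
    { toFun := fun p => p.1.2 c
      map_add' := fun p q => rfl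
      map_smul' := fun a p => rfl }) (fun c z w => rfl) (fun w hw => ?_) fun z hz c => ?_
  · rwa [Module.finrank_fintype_fun_eq_card] at h
  · obtain ⟨y, hy⟩ := hs w hw
    exact ⟨⟨(y, w), hy⟩, fun c => rfl⟩
  · have h1 : z.1.1 = 0 := by
      ext i j
      have h2 := congrFun (hz (Pi.single j 1)) i
      have h3 : z.1.1 *ᵥ Pi.single j (1 : ℂ) = (z.1.1).col j := Matrix.mulVec_single_one _ _
      change (z.1.1 *ᵥ Pi.single j (1 : ℂ)) i = 0 at h2
      rw [h3] at h2
      exact h2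
    refine hk z.1.2 ?_ c
    rw [← h1]
    exact z.2

end Pool.Agent.KS6_11.S
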