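import Pool.Agent.KS6_11.S.Sub
import Pool.Graph.R_pool_sql_team_seeded_64922ed1.X306.RL.Main

set_option autoImplicit false
set_option linter.unusedVariables false
set_option linter.unusedSectionVars false
set_option linter.unusedSimpArgs false

/-!
# The number of the curves which occur in the endomorphisms of an arbitrary motive
-/

open scoped PeriodPair
open Matrix

noncomputable section

namespace Pool.Agent.KS6_11.S

open Pool.Agent.TH119.DR Pool.Agent.TH119.MX Pool.Agent.X306.EM Pool.Agent.X306.RL W245.EB H667R3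

variable {B : Type} [Fintype B] [DecidableEq B] {C : Type} [Fintype C] [DecidableEq C]

/-- the elements with the right traces which normalise all graphs -/
def Nz (Γ : C → Submodule ℂ (Matrix B B ℂ × M2)) :
    Submodule ℂ (Matrix B B ℂ × LT C (fun _ => Empty) Empty) where
  carrier := {p | (∀ c, (p.2.1 c).trace = p.2.2.2.1) ∧
    ∀ c, ∀ q ∈ Γ c, (p.1 * q.1 - q.1 * p.1, p.2.1 c * q.2 - q.2 * p.2.1 c) ∈ Γ c}
  zero_mem' := by
    refine ⟨fun c => Matrix.trace_zero _ _, fun c q hq => ?_⟩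
    refine (congrArg (· ∈ Γ c) ?_).mp (Γ c).zero_mem
    refine Prod.ext ?_ ?_
    · change (0 : Matrix B B ℂ) = 0 * q.1 - q.1 * 0
      rw [Matrix.zero_mul, Matrix.mul_zero, sub_zero]
    · change (0 : M2) = 0 * q.2 - q.2 * 0
      rw [Matrix.zero_mul, Matrix.mul_zero, sub_zero]
  add_mem' := by
    rintro p p' ⟨h1, h2⟩ ⟨h3, h4⟩
    refine ⟨fun c => ?_, fun c q hq => ?_⟩
    · change (p.2.1 c + p'.2.1 c).trace = p.2.2.2.1 + p'.2.2.2.1
      rw [Matrix.trace_add, h1, h3]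
    · refine (congrArg (· ∈ Γ c) ?_).mp ((Γ c).add_mem (h2 c q hq) (h4 c q hq))
      refine Prod.ext ?_ ?_
      · change p.1 * q.1 - q.1 * p.1 + (p'.1 * q.1 - q.1 * p'.1) = (p.1 + p'.1) * q.1 - q.1 * (p.1 + p'.1)
        rw [Matrix.add_mul, Matrix.mul_add]
        abel
      · change p.2.1 c * q.2 - q.2 * p.2.1 c + (p'.2.1 c * q.2 - q.2 * p'.2.1 c) =
          (p.2.1 c + p'.2.1 c) * q.2 - q.2 * (p.2.1 c + p'.2.1 c)
        rw [Matrix.add_mul, Matrix.mul_add]
        abel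
  smul_mem' := by
    rintro a p ⟨h1, h2⟩
    refine ⟨fun c => ?_, fun c q hq => ?_⟩
    · change (a • p.2.1 c).trace = a * p.2.2.2.1
      rw [Matrix.trace_smul, h1, smul_eq_mul]
    · refine (congrArg (· ∈ Γ c) ?_).mp ((Γ c).smul_mem a (h2 c q hq))
      refine Prod.ext ?_ ?_
      · change a • (p.1 * q.1 - q.1 * p.1) = (a • p.1) * q.1 - q.1 * (a • p.1)
        rw [Matrix.mul_smul, Matrix.smul_mul, smul_sub]
      · change a • (p.2.1 c * q.2 - q.2 * p.2.1 c) = (a • p.2.1 c) * q.2 - q.2 * (a • p.2.1 c)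
        rw [Matrix.mul_smul, Matrix.smul_mul, smul_sub]

theorem mem_Nz {Γ : C → Submodule ℂ (Matrix B B ℂ × M2)} {p : Matrix B B ℂ × LT C (fun _ => Empty) Empty} :
    p ∈ Nz Γ ↔ (∀ c, (p.2.1 c).trace = p.2.2.2.1) ∧
      ∀ c, ∀ q ∈ Γ c, (p.1 * q.1 - q.1 * p.1, p.2.1 c * q.2 - q.2 * p.2.1 c) ∈ Γ c := Iff.rfl

theorem Nz_br {Γ : C → Submodule ℂ (Matrix B B ℂ × M2)} {y y' : Matrix B B ℂ} {x x' : LT C (fun _ => Empty) Empty}
    (h : (y, x) ∈ Nz Γ) (h' : (y', x') ∈ Nz Γ) : (y * y' - y' * y, br x x') ∈ Nz Γ := by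
  refine mem_Nz.2 ⟨fun c => ?_, fun c q hq => ?_⟩
  · change (x.1 c * x'.1 c - x'.1 c * x.1 c).trace = 0
    rw [Matrix.trace_sub, Matrix.trace_mul_comm, sub_self]
  · have h1 := h.2 c _ (h'.2 c q hq)
    have h2 := h'.2 c _ (h.2 c q hq)
    refine (congrArg (· ∈ Γ c) ?_).mp ((Γ c).sub_mem h1 h2)
    refine Prod.ext ?_ ?_
    · change y * (y' * q.1 - q.1 * y') - (y' * q.1 - q.1 * y') * y - (y' * (y * q.1 - q.1 * y) - (y * q.1 - q.1 * y) * y') =
        (y * y' - y' * y) * q.1 - q.1 * (y * y' - y' * y)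
      simp only [Matrix.mul_sub, Matrix.sub_mul, Matrix.mul_assoc]
      abel
    · change x.1 c * (x'.1 c * q.2 - q.2 * x'.1 c) - (x'.1 c * q.2 - q.2 * x'.1 c) * x.1 c -
        (x'.1 c * (x.1 c * q.2 - q.2 * x.1 c) - (x.1 c * q.2 - q.2 * x.1 c) * x'.1 c) =
        (x.1 c * x'.1 c - x'.1 c * x.1 c) * q.2 - q.2 * (x.1 c * x'.1 c - x'.1 c * x.1 c)
      simp only [Matrix.mul_sub, Matrix.sub_mul, Matrix.mul_assoc]
      abel

/-- linear maps and commutators with rational matrices -/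
theorem map_comm_rat {F : Subfield ℂ} (f : ℂ →ₗ[F] ℂ) {N : Type} [Fintype N] (p q : Matrix N N ℂ)
    (hq : ∀ i j, q i j ∈ F) : (p * q - q * p).map f = p.map f * q - q * p.map f := by
  ext i j
  simp only [Matrix.map_apply, Matrix.sub_apply, Matrix.mul_apply, map_sub, map_sum]
  congr 1
  · refine Finset.sum_congr rfl fun k _ => ?_
    exact lin_mul' f (hq k j) _
  · refine Finset.sum_congr rfl fun k _ => ?_
    exact lin_mul f (hq i k) _

theorem Nz_F {F : Subfield ℂ} {Γ : C → Submodule ℂ (Matrix B B ℂ × M2)}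
    (hF : ∀ c, ∀ f : ℂ →ₗ[F] ℂ, ∀ p ∈ Γ c, (p.1.map f, p.2.map f) ∈ Γ c) (f : ℂ →ₗ[F] ℂ) {y : Matrix B B ℂ}
    {x : LT C (fun _ => Empty) Empty} (h : (y, x) ∈ Nz Γ) : (y.map f, mp f x) ∈ Nz Γ := by
  refine mem_Nz.2 ⟨fun c => ?_, fun c q hq => ?_⟩
  · change ((x.1 c).map f).trace = f x.2.2.1
    rw [← h.1 c, Matrix.trace_fin_two, Matrix.trace_fin_two, map_add]
    rfl
  · have h1 := span_of_map (hF c) hq
    clear hq
    induction h1 using Submodule.span_induction with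
    | mem q h2 =>
      obtain ⟨h3, h4, h5⟩ := h2
      have h6 := hF c f _ (h.2 c q h3)
      refine (congrArg (· ∈ Γ c) ?_).mp h6
      refine Prod.ext ?_ ?_
      · exact map_comm_rat f y q.1 h4
      · exact map_comm_rat f (x.1 c) q.2 h5
    | zero =>
      refine (congrArg (· ∈ Γ c) ?_).mp (Γ c).zero_mem
      refine Prod.ext ?_ ?_
      · change (0 : Matrix B B ℂ) = y.map f * 0 - 0 * y.map f
        rw [Matrix.zero_mul, Matrix.mul_zero, sub_zero]
      · change (0 : M2) = (x.1 c).map f * 0 - 0 * (x.1 c).map f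
        rw [Matrix.zero_mul, Matrix.mul_zero, sub_zero]
    | add q q' _ _ h2 h3 =>
      refine (congrArg (· ∈ Γ c) ?_).mp ((Γ c).add_mem h2 h3)
      refine Prod.ext ?_ ?_
      · change y.map f * q.1 - q.1 * y.map f + (y.map f * q'.1 - q'.1 * y.map f) =
          y.map f * (q.1 + q'.1) - (q.1 + q'.1) * y.map f
        rw [Matrix.add_mul, Matrix.mul_add]
        abel
      · change (x.1 c).map f * q.2 - q.2 * (x.1 c).map f + ((x.1 c).map f * q'.2 - q'.2 * (x.1 c).map f) =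
          (x.1 c).map f * (q.2 + q'.2) - (q.2 + q'.2) * (x.1 c).map f
        rw [Matrix.add_mul, Matrix.mul_add]
        abel
    | smul a q _ h2 =>
      refine (congrArg (· ∈ Γ c) ?_).mp ((Γ c).smul_mem a h2)
      refine Prod.ext ?_ ?_
      · change a • (y.map f * q.1 - q.1 * y.map f) = y.map f * (a • q.1) - (a • q.1) * y.map f
        rw [Matrix.mul_smul, Matrix.smul_mul, smul_sub]
      · change a • ((x.1 c).map f * q.2 - q.2 * (x.1 c).map f) = (x.1 c).map f * (a • q.2) - (a • q.2) * (x.1 c).map f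
        rw [Matrix.mul_smul, Matrix.smul_mul, smul_sub]

/-- commutators after conjugation -/
theorem comm_conj {N : Type} [Fintype N] [DecidableEq N] {A A' : Matrix N N ℂ} (h1 : A' * A = 1) (p q : Matrix N N ℂ) :
    A * p * A' * (A * q * A') - A * q * A' * (A * p * A') = A * (p * q - q * p) * A' := by
  have h2 : ∀ X Y : Matrix N N ℂ, A * X * A' * (A * Y * A') = A * (X * Y) * A' := by
    intro X Y
    calc A * X * A' * (A * Y * A') = A * X * (A' * A) * Y * A' := by simp only [Matrix.mul_assoc]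
      _ = A * (X * Y) * A' := by rw [h1, Matrix.mul_one]; simp only [Matrix.mul_assoc]
  rw [h2, h2, Matrix.mul_sub, Matrix.sub_mul]

theorem conj_conj {N : Type} [Fintype N] [DecidableEq N] {A A' : Matrix N N ℂ} (h1 : A * A' = 1) (p : Matrix N N ℂ) :
    A * (A' * p * A) * A' = p := by
  calc A * (A' * p * A) * A' = (A * A') * p * (A * A') := by simp only [Matrix.mul_assoc]
    _ = p := by rw [h1, Matrix.one_mul, Matrix.mul_one]

/-- the commutator of the transformed matrix with a matrix which is rational on the de Rham side -/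
theorem comm_K {K : Subfield ℂ} (f : ℂ →ₗ[K] ℂ) {N : Type} [Fintype N] [DecidableEq N] {A A' : Matrix N N ℂ}
    (h1 : A * A' = 1) (h1' : A' * A = 1) (p q : Matrix N N ℂ) (hq : ∀ i j, (A' * q * A) i j ∈ K) :
    A * (A' * (p * q - q * p) * A).map f * A' =
      A * (A' * p * A).map f * A' * q - q * (A * (A' * p * A).map f * A') := by
  have h2 : A' * (p * q - q * p) * A = (A' * p * A) * (A' * q * A) - (A' * q * A) * (A' * p * A) :=
    (comm_conj h1 p q).symm
  have h3 : q = A * (A' * q * A) * A' := (conj_conj h1 q).symm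
  rw [h2, map_comm_rat f _ _ hq]
  conv_rhs => rw [h3]
  rw [comm_conj h1']

theorem Nz_K {K : Subfield ℂ} {Γ : C → Submodule ℂ (Matrix B B ℂ × M2)} {C₀ : Matrix B B ℂ} (h0 : IsUnit C₀)
    (D : Per C (fun _ => Empty) Empty)
    (hK : ∀ c, ∀ f : ℂ →ₗ[K] ℂ, ∀ p ∈ Γ c,
      (C₀ * (C₀⁻¹ * p.1 * C₀).map f * C₀⁻¹, D.P c * (D.P' c * p.2 * D.P c).map f * D.P' c) ∈ Γ c) (f : ℂ →ₗ[K] ℂ)
    {y : Matrix B B ℂ} {x : LT C (fun _ => Empty) Empty} (h : (y, x) ∈ Nz Γ) :
    (C₀ * (C₀⁻¹ * y * C₀).map f * C₀⁻¹, kapi D (mp f (kap D x))) ∈ Nz Γ := by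
  refine mem_Nz.2 ⟨fun c => ?_, fun c q hq => ?_⟩
  · change (D.P c * (D.P' c * x.1 c * D.P c).map f * D.P' c).trace = f x.2.2.1
    rw [Matrix.trace_mul_comm, ← Matrix.mul_assoc, D.P'P, Matrix.one_mul, ← h.1 c]
    have h1 : (D.P' c * x.1 c * D.P c).trace = (x.1 c).trace := by
      rw [Matrix.trace_mul_comm, ← Matrix.mul_assoc, D.PP', Matrix.one_mul]
    change _ = f (x.1 c).trace
    rw [← h1, Matrix.trace_fin_two, Matrix.trace_fin_two, map_add]
    rfl
  · have h1 := span_of_map' (c0_inv h0) (inv_c0 h0) (D.PP' c) (D.P'P c) (hK c) hq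
    clear hq
    set Y := C₀ * (C₀⁻¹ * y * C₀).map f * C₀⁻¹ with hY
    have hX : (kapi D (mp f (kap D x))).1 c = D.P c * (D.P' c * x.1 c * D.P c).map f * D.P' c := rfl
    change (Y * q.1 - q.1 * Y, (kapi D (mp f (kap D x))).1 c * q.2 - q.2 * (kapi D (mp f (kap D x))).1 c) ∈ Γ c
    rw [hX]
    set X := D.P c * (D.P' c * x.1 c * D.P c).map f * D.P' c with hX'
    induction h1 using Submodule.span_induction with
    | mem q h2 =>
      obtain ⟨h3, h4, h5⟩ := h2
      have h6 := hK c f _ (h.2 c q h3)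
      refine (congrArg (· ∈ Γ c) ?_).mp h6
      refine Prod.ext ?_ ?_
      · exact comm_K f (c0_inv h0) (inv_c0 h0) y q.1 h4
      · exact comm_K f (D.PP' c) (D.P'P c) (x.1 c) q.2 h5
    | zero =>
      refine (congrArg (· ∈ Γ c) ?_).mp (Γ c).zero_mem
      refine Prod.ext ?_ ?_
      · change (0 : Matrix B B ℂ) = Y * 0 - 0 * Y
        rw [Matrix.zero_mul, Matrix.mul_zero, sub_zero]
      · change (0 : M2) = X * 0 - 0 * X
        rw [Matrix.zero_mul, Matrix.mul_zero, sub_zero]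
    | add q q' _ _ h2 h3 =>
      refine (congrArg (· ∈ Γ c) ?_).mp ((Γ c).add_mem h2 h3)
      refine Prod.ext ?_ ?_
      · change Y * q.1 - q.1 * Y + (Y * q'.1 - q'.1 * Y) = Y * (q.1 + q'.1) - (q.1 + q'.1) * Y
        rw [Matrix.add_mul, Matrix.mul_add]
        abel
      · change X * q.2 - q.2 * X + (X * q'.2 - q'.2 * X) = X * (q.2 + q'.2) - (q.2 + q'.2) * X
        rw [Matrix.add_mul, Matrix.mul_add]
        abel
    | smul a q _ h2 =>
      refine (congrArg (· ∈ Γ c) ?_).mp ((Γ c).smul_mem a h2)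
      refine Prod.ext ?_ ?_
      · change a • (Y * q.1 - q.1 * Y) = Y * (a • q.1) - (a • q.1) * Y
        rw [Matrix.mul_smul, Matrix.smul_mul, smul_sub]
      · change a • (X * q.2 - q.2 * X) = X * (a • q.2) - (a • q.2) * X
        rw [Matrix.mul_smul, Matrix.smul_mul, smul_sub]

/-- the product rule for matrices -/
theorem map_mul_der' (δ : Derivation ℚ ℂ ℂ) {N : Type} [Fintype N] (x y : Matrix N N ℂ) :
    (x * y).map δ = x.map δ * y + x * y.map δ := by
  ext i j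
  simp only [Matrix.map_apply, Matrix.mul_apply, Matrix.add_apply, map_sum, Derivation.leibniz, smul_eq_mul,
    Finset.sum_add_distrib]
  rw [add_comm]
  congr 1
  refine Finset.sum_congr rfl fun k _ => ?_
  ring

/-- the logarithmic derivative and matrices which are algebraic on the de Rham side -/
theorem comm_der (δ : Derivation ℚ ℂ ℂ) {N : Type} [Fintype N] [DecidableEq N] {A A' : Matrix N N ℂ}
    (h1 : A * A' = 1) (h1' : A' * A = 1) (q : Matrix N N ℂ) (hq : ∀ i j, IsAlgebraic ℚ ((A' * q * A) i j)) :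
    q.map δ = A.map δ * A' * q - q * (A.map δ * A') := by
  have h2 : (A' * q * A).map δ = 0 := by
    ext i j
    exact deriv_alg δ (hq i j)
  have h3 : (q * A).map δ = (A * (A' * q * A)).map δ := by
    congr 1
    rw [← Matrix.mul_assoc, ← Matrix.mul_assoc, h1, Matrix.one_mul]
  rw [map_mul_der', map_mul_der', h2, Matrix.mul_zero, add_zero] at h3
  have h4 : q.map δ * A = A.map δ * (A' * q * A) - q * A.map δ := by
    rw [← h3, add_sub_cancel_right]
  calc q.map δ = q.map δ * A * A' := by rw [Matrix.mul_assoc, h1, Matrix.mul_one]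
    _ = A.map δ * (A' * q * A) * A' - q * A.map δ * A' := by rw [h4, Matrix.sub_mul]
    _ = A.map δ * A' * q * (A * A') - q * (A.map δ * A') := by simp only [Matrix.mul_assoc]
    _ = _ := by rw [h1, Matrix.mul_one]

/-- the logarithmic derivatives of the period matrix -/
theorem Nz_der {Γ : C → Submodule ℂ (Matrix B B ℂ × M2)} {C₀ : Matrix B B ℂ} (h0 : IsUnit C₀)
    (D : Per C (fun _ => Empty) Empty) (hL : Leg D)
    (hF : ∀ c, ∀ f : ℂ →ₗ[QQ] ℂ, ∀ p ∈ Γ c, (p.1.map f, p.2.map f) ∈ Γ c)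
    (hK : ∀ c, ∀ f : ℂ →ₗ[QB] ℂ, ∀ p ∈ Γ c,
      (C₀ * (C₀⁻¹ * p.1 * C₀).map f * C₀⁻¹, D.P c * (D.P' c * p.2 * D.P c).map f * D.P' c) ∈ Γ c)
    (δ : Derivation ℚ ℂ ℂ) : (C₀.map δ * C₀⁻¹, lam D δ) ∈ Nz Γ := by
  refine mem_Nz.2 ⟨fun c => ?_, fun c q hq => ?_⟩
  · change ((D.P c).map δ * D.P' c).trace = δ D.w / D.w
    obtain ⟨n, hn, hn2⟩ := hL c
    have h1 := tr_der δ (D.P'P c)
    have hdet : (D.P c).det ≠ 0 := by
      intro h
      have h2 := congrArg Matrix.det (D.PP' c)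
      rw [Matrix.det_mul, h, zero_mul, Matrix.det_one] at h2
      exact zero_ne_one h2
    have hn0 : n ≠ 0 := by
      rintro rfl
      rw [zero_mul] at hn2
      exact hdet hn2
    rw [hn2, Derivation.leibniz, deriv_alg δ hn, smul_zero, add_zero, smul_eq_mul] at h1
    rw [eq_div_iff D.w0]
    have h2 : n * (((D.P c).map δ * D.P' c).trace * D.w) = n * δ D.w := by
      rw [← h1]
      ring
    exact mul_left_cancel₀ hn0 h2
  · have h1 := span_of_map' (c0_inv h0) (inv_c0 h0) (D.PP' c) (D.P'P c) (hK c) hq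
    clear hq
    set Y := C₀.map δ * C₀⁻¹ with hY
    have hX : (lam D δ).1 c = (D.P c).map δ * D.P' c := rfl
    change (Y * q.1 - q.1 * Y, (lam D δ).1 c * q.2 - q.2 * (lam D δ).1 c) ∈ Γ c
    rw [hX]
    set X := (D.P c).map δ * D.P' c with hX'
    induction h1 using Submodule.span_induction with
    | mem q h2 =>
      obtain ⟨h3, h4, h5⟩ := h2
      have h6 := hF c (derK δ QQ (fun x hx => (QB_iff x).2 (QQ_le hx))) q h3
      refine (congrArg (· ∈ Γ c) ?_).mp h6
      refine Prod.ext ?_ ?_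
      · exact comm_der δ (c0_inv h0) (inv_c0 h0) q.1 fun i j => (QB_iff _).2 (h4 i j)
      · exact comm_der δ (D.PP' c) (D.P'P c) q.2 fun i j => (QB_iff _).2 (h5 i j)
    | zero =>
      refine (congrArg (· ∈ Γ c) ?_).mp (Γ c).zero_mem
      refine Prod.ext ?_ ?_
      · change (0 : Matrix B B ℂ) = Y * 0 - 0 * Y
        rw [Matrix.zero_mul, Matrix.mul_zero, sub_zero]
      · change (0 : M2) = X * 0 - 0 * X
        rw [Matrix.zero_mul, Matrix.mul_zero, sub_zero]
    | add q q' _ _ h2 h3 =>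
      refine (congrArg (· ∈ Γ c) ?_).mp ((Γ c).add_mem h2 h3)
      refine Prod.ext ?_ ?_
      · change Y * q.1 - q.1 * Y + (Y * q'.1 - q'.1 * Y) = Y * (q.1 + q'.1) - (q.1 + q'.1) * Y
        rw [Matrix.add_mul, Matrix.mul_add]
        abel
      · change X * q.2 - q.2 * X + (X * q'.2 - q'.2 * X) = X * (q.2 + q'.2) - (q.2 + q'.2) * X
        rw [Matrix.add_mul, Matrix.mul_add]
        abel
    | smul a q _ h2 =>
      refine (congrArg (· ∈ Γ c) ?_).mp ((Γ c).smul_mem a h2)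
      refine Prod.ext ?_ ?_
      · change a • (Y * q.1 - q.1 * Y) = Y * (a • q.1) - (a • q.1) * Y
        rw [Matrix.mul_smul, Matrix.smul_mul, smul_sub]
      · change a • (X * q.2 - q.2 * X) = X * (a • q.2) - (a • q.2) * X
        rw [Matrix.mul_smul, Matrix.smul_mul, smul_sub]

/-- **The number of the curves.** -/
theorem card_cpl {L : C → PeriodPair} (h2 : ∀ c, IsAlgebraic ℚ (L c).g₂) (h3 : ∀ c, IsAlgebraic ℚ (L c).g₃)
    (hCM : ∀ c, ∀ α : ℂ, (∀ w ∈ (L c).lattice, α * w ∈ (L c).lattice) → ∃ n : ℤ, α = n)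
    (hiso : ∀ c c', c ≠ c' → ∀ α : ℂ, (∀ w ∈ (L c).lattice, α * w ∈ (L c').lattice) → α = 0)
    {C₀ : Matrix B B ℂ} (h0 : IsUnit C₀) (P' : C → M2)
    (hP' : ∀ c, !![(L c).ω₁, eta (L c) (L c).ω₁; (L c).ω₂, eta (L c) (L c).ω₂] * P' c = 1)
    (Γ : C → Submodule ℂ (Matrix B B ℂ × M2))
    (hΓ : ∀ c, Cpl QQ QB C₀ !![(L c).ω₁, eta (L c) (L c).ω₁; (L c).ω₂, eta (L c) (L c).ω₂] (P' c) (Γ c)) :
    2 * Fintype.card C ≤ Fintype.card B := by
  let D : Per C (fun _ => Empty) Empty := pers L (fun c (r : Empty) => r.elim) (fun j : Empty => j.elim)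
  have hI : Indep D QB :=
    pers_indep h2 h3 hCM (fun c r => r.elim) (fun c n _ => funext fun r => r.elim) (fun j => j.elim)
      (fun n _ => funext fun r => r.elim)
  have hL : Leg D := pers_leg L _ _
  have hP : ∀ c, P' c = D.P' c := by
    intro c
    calc P' c = (D.P' c * D.P c) * P' c := by rw [D.P'P, Matrix.one_mul]
      _ = D.P' c * (D.P c * P' c) := by rw [Matrix.mul_assoc]
      _ = D.P' c := by
        have h : D.P c * P' c = 1 := hP' c
        rw [h, Matrix.mul_one]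
  have hΓ' : ∀ c, Cpl QQ QB C₀ (D.P c) (D.P' c) (Γ c) := by
    intro c
    have h := hΓ c
    rw [hP c] at h
    exact h
  have hKA : ∀ x : ℂ, IsAlgebraic ℚ x → x ∈ QB := fun x => (QB_iff x).1
  let S : Submodule ℂ (LT C (fun _ => Empty) Empty) :=
    (Nz Γ).map (LinearMap.snd ℂ (Matrix B B ℂ) (LT C (fun _ => Empty) Empty))
  have hmem : ∀ x, x ∈ S ↔ ∃ y, (y, x) ∈ Nz Γ := by
    intro x
    constructor
    · rintro ⟨⟨y, x⟩, h, rfl⟩
      exact ⟨y, h⟩
    · rintro ⟨y, h⟩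
      exact ⟨(y, x), h, rfl⟩
  have hS : Good D QQ QB S :=
    { htr := fun x hx => by
        obtain ⟨y, h⟩ := (hmem x).1 hx
        exact h.1
      hbr := fun x hx x' hx' => by
        obtain ⟨y, h⟩ := (hmem x).1 hx
        obtain ⟨y', h'⟩ := (hmem x').1 hx'
        exact (hmem _).2 ⟨_, Nz_br h h'⟩
      hF := fun f x hx => by
        obtain ⟨y, h⟩ := (hmem x).1 hx
        exact (hmem _).2 ⟨_, Nz_F (fun c => (hΓ' c).hF) f h⟩
      hK := fun f x hx => by
        obtain ⟨y, h⟩ := (hmem x).1 hx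
        exact (hmem _).2 ⟨_, Nz_K h0 D (fun c => (hΓ' c).hK) f h⟩
      hder := fun δ => (hmem _).2 ⟨_, Nz_der h0 D hL (fun c => (hΓ' c).hF) (fun c => (hΓ' c).hK) δ⟩ }
  have hpair : ∀ c c', c ≠ c' → ∀ x : M2, x.trace = 0 → ∃ X ∈ S, q0 (X.1 c) = x ∧ q0 (X.1 c') = 0 := by
    intro c c' hcc x hx
    exact pair_main h2 h3 hI hS (hiso c' c (Ne.symm hcc)) hx
  let N : Submodule ℂ (Matrix B B ℂ × (C → Matrix (Fin 2) (Fin 2) ℂ)) :=
    { carrier := {p | ∀ c, ∀ q ∈ Γ c, (p.1 * q.1 - q.1 * p.1, p.2 c * q.2 - q.2 * p.2 c) ∈ Γ c}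
      zero_mem' := by
        intro c q hq
        refine (congrArg (· ∈ Γ c) ?_).mp (Γ c).zero_mem
        refine Prod.ext ?_ ?_
        · change (0 : Matrix B B ℂ) = 0 * q.1 - q.1 * 0
          rw [Matrix.zero_mul, Matrix.mul_zero, sub_zero]
        · change (0 : M2) = 0 * q.2 - q.2 * 0
          rw [Matrix.zero_mul, Matrix.mul_zero, sub_zero]
      add_mem' := by
        intro p p' h1 h2 c q hq
        refine (congrArg (· ∈ Γ c) ?_).mp ((Γ c).add_mem (h1 c q hq) (h2 c q hq))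
        refine Prod.ext ?_ ?_
        · change p.1 * q.1 - q.1 * p.1 + (p'.1 * q.1 - q.1 * p'.1) = (p.1 + p'.1) * q.1 - q.1 * (p.1 + p'.1)
          rw [Matrix.add_mul, Matrix.mul_add]
          abel
        · change p.2 c * q.2 - q.2 * p.2 c + (p'.2 c * q.2 - q.2 * p'.2 c) =
            (p.2 c + p'.2 c) * q.2 - q.2 * (p.2 c + p'.2 c)
          rw [Matrix.add_mul, Matrix.mul_add]
          abel
      smul_mem' := by
        intro a p h1 c q hq
        refine (congrArg (· ∈ Γ c) ?_).mp ((Γ c).smul_mem a (h1 c q hq))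
        refine Prod.ext ?_ ?_
        · change a • (p.1 * q.1 - q.1 * p.1) = (a • p.1) * q.1 - q.1 * (a • p.1)
          rw [Matrix.mul_smul, Matrix.smul_mul, smul_sub]
        · change a • (p.2 c * q.2 - q.2 * p.2 c) = (a • p.2 c) * q.2 - q.2 * (a • p.2 c)
          rw [Matrix.mul_smul, Matrix.smul_mul, smul_sub] }
  have hN : ∀ p, p ∈ N ↔ ∀ c, ∀ q ∈ Γ c, (p.1 * q.1 - q.1 * p.1, p.2 c * q.2 - q.2 * p.2 c) ∈ Γ c := fun p => Iff.rfl
  refine cap_sub N ?_ ?_ ?_
  · intro p hp p' hp' c q hq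
    have h1 := hp c _ (hp' c q hq)
    have h2 := hp' c _ (hp c q hq)
    refine (congrArg (· ∈ Γ c) ?_).mp ((Γ c).sub_mem h1 h2)
    refine Prod.ext ?_ ?_
    · change p.1 * (p'.1 * q.1 - q.1 * p'.1) - (p'.1 * q.1 - q.1 * p'.1) * p.1 -
        (p'.1 * (p.1 * q.1 - q.1 * p.1) - (p.1 * q.1 - q.1 * p.1) * p'.1) =
        (p.1 * p'.1 - p'.1 * p.1) * q.1 - q.1 * (p.1 * p'.1 - p'.1 * p.1)
      simp only [Matrix.mul_sub, Matrix.sub_mul, Matrix.mul_assoc]
      abel
    · change p.2 c * (p'.2 c * q.2 - q.2 * p'.2 c) - (p'.2 c * q.2 - q.2 * p'.2 c) * p.2 c -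
        (p'.2 c * (p.2 c * q.2 - q.2 * p.2 c) - (p.2 c * q.2 - q.2 * p.2 c) * p'.2 c) =
        (p.2 c * p'.2 c - p'.2 c * p.2 c) * q.2 - q.2 * (p.2 c * p'.2 c - p'.2 c * p.2 c)
      simp only [Matrix.mul_sub, Matrix.sub_mul, Matrix.mul_assoc]
      abel
  · intro w hw
    have h1 : ((w, fun c => Matrix.of fun r => r.elim, 0, fun j => j.elim) : LT C (fun _ => Empty) Empty) ∈ S :=
      hS.main (fun c x hx => hS.iso' hI QQ_le sqc hKA hpair c hx) hI QQ_le hKA fun c => hw c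
    obtain ⟨y, hy⟩ := (hmem _).1 h1
    exact ⟨y, fun c q hq => hy.2 c q hq⟩
  · intro x hx c
    have h1 : ∀ z : M2, z.trace = 0 → x c * z - z * x c = 0 := by
      intro z hz
      obtain ⟨y, hy⟩ := (hΓ c).surj z hz
      have h4 := hx c _ hy
      refine (hΓ c).inj _ ?_
      refine (congrArg (· ∈ Γ c) ?_).mp h4
      refine Prod.ext ?_ rfl
      change (0 : Matrix B B ℂ) * y - y * 0 = 0
      rw [Matrix.zero_mul, Matrix.mul_zero, sub_zero]
    have he := h1 se tr_se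
    have hf := h1 sf tr_sf
    refine ⟨x c 0 0, ?_⟩
    have e00 := congrFun (congrFun he 0) 0
    have e01 := congrFun (congrFun he 0) 1
    have f00 := congrFun (congrFun hf 0) 0
    rw [Matrix.sub_apply, Matrix.mul_apply, Matrix.mul_apply, Fin.sum_univ_two, Fin.sum_univ_two] at e00 e01 f00
    simp only [se, sf, Matrix.of_apply, Matrix.cons_val', Matrix.cons_val_zero, Matrix.cons_val_one,
      Matrix.cons_val_fin_one, Matrix.zero_apply, mul_zero, mul_one, zero_mul, one_mul, add_zero, zero_add, zero_sub,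
      sub_zero, neg_eq_zero] at e00 e01 f00
    ext i j
    fin_cases i <;> fin_cases j
    · simp
    · simpa using f00
    · simpa using e00
    · simp
      linear_combination -e01

end Pool.Agent.KS6_11.S
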