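import Mathlib

set_option autoImplicit false
set_option linter.unusedVariables false

/-!
# Weights and functionals
-/

open Module LieModule LieAlgebra

noncomputable section

namespace Pool.Agent.KS6_11.S

variable {H L : Type} [LieRing H] [LieAlgebra ℂ H] [LieRing.IsNilpotent H] [AddCommGroup L] [Module ℂ L]
  [LieRingModule H L] [LieModule ℂ H L]

/-- a functional of weight `β` kills the weight spaces of the other weights -/
theorem fun_zero {l : L →ₗ[ℂ] ℂ} {β : H → ℂ} (hl : ∀ (y : H) (z : L), l ⁅y, z⁆ = β y * l z) {χ : H → ℂ} (h : χ ≠ β)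
    {z : L} (hz : z ∈ genWeightSpace L χ) : l z = 0 := by
  obtain ⟨y, hy⟩ := Function.ne_iff.1 h
  obtain ⟨k, hk⟩ := (mem_genWeightSpace L χ z).1 hz y
  have h1 : ∀ (n : ℕ) (z : L), l (((toEnd ℂ H L y - χ y • (1 : Module.End ℂ L)) ^ n) z) = (β y - χ y) ^ n * l z := by
    intro n
    induction n with
    | zero => intro z; simp
    | succ n ih =>
      intro z
      rw [pow_succ, Module.End.mul_apply, ih, pow_succ]
      have h2 : (toEnd ℂ H L y - χ y • (1 : Module.End ℂ L)) z = ⁅y, z⁆ - χ y • z := by simp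
      rw [h2, map_sub, hl, map_smul, smul_eq_mul]
      ring
  have h2 := h1 k z
  rw [hk, map_zero] at h2
  have h3 : (β y - χ y) ^ k ≠ 0 := pow_ne_zero _ (sub_ne_zero.2 (Ne.symm hy))
  exact (mul_eq_zero.1 h2.symm).resolve_left h3

variable [FiniteDimensional ℂ L]

/-- the component of a weight -/
theorem exists_comp (χ : H → ℂ) (z : L) : ∃ z₁ ∈ genWeightSpace L χ, ∀ (l : L →ₗ[ℂ] ℂ),
    (∀ (y : H) (z : L), l ⁅y, z⁆ = χ y * l z) → l z₁ = l z := by
  have h1 : ⨆ ψ : H → ℂ, genWeightSpace L ψ = ⊤ := iSup_genWeightSpace_eq_top ℂ H L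
  have h2 : z ∈ ⨆ ψ : H → ℂ, genWeightSpace L ψ := by
    rw [h1]
    trivial
  induction h2 using LieSubmodule.iSup_induction' with
  | mem ψ z hz =>
    by_cases h : ψ = χ
    · subst h
      exact ⟨z, hz, fun l hl => rfl⟩
    · exact ⟨0, (genWeightSpace L χ).zero_mem, fun l hl => by rw [map_zero, fun_zero hl h hz]⟩
  | zero => exact ⟨0, (genWeightSpace L χ).zero_mem, fun l hl => rfl⟩
  | add z z' _ _ h3 h4 =>
    obtain ⟨z₁, h5, h6⟩ := h3
    obtain ⟨z₂, h7, h8⟩ := h4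
    exact ⟨z₁ + z₂, (genWeightSpace L χ).add_mem h5 h7, fun l hl => by rw [map_add, map_add, h6 l hl, h8 l hl]⟩

end Pool.Agent.KS6_11.S

namespace Pool.Agent.KS6_11.S

variable {L V : Type} [LieRing L] [LieAlgebra ℂ L] [FiniteDimensional ℂ L] [AddCommGroup V] [Module ℂ V]
  [FiniteDimensional ℂ V] [LieRingModule L V] [LieModule ℂ L V] {H : LieSubalgebra ℂ L} [H.IsCartanSubalgebra]

set_option backward.isDefEq.respectTransparency.types false in
/-- the trace on a chain of weights -/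
theorem chain_sum {α χ : H → ℂ} (hα : α ≠ 0) {x : H} (hx : x ∈ corootSpace α) :
    ∃ p < (0 : ℤ), ∃ q > (0 : ℤ), ∑ i ∈ Finset.Ioo p q, (finrank ℂ (genWeightSpace V (i • α + χ)) : ℂ) *
      ((i : ℂ) * α x + χ x) = 0 := by
  obtain ⟨p, hp₀, q, hq₀, hp, hq⟩ := exists₂_genWeightSpace_smul_add_eq_bot V α χ hα
  refine ⟨p, hp₀, q, hq₀, ?_⟩
  let N : ℤ → Submodule ℂ V := fun k ↦ genWeightSpace V (k • α + χ)
  have h₁ : iSupIndep fun (i : Finset.Ioo p q) ↦ N i := by
    rw [LieSubmodule.iSupIndep_toSubmodule]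
    refine (iSupIndep_genWeightSpace ℂ H V).comp fun i j hij ↦ ?_
    exact SetCoe.ext <| smul_left_injective ℤ hα <| by rwa [add_left_inj] at hij
  have h₂ : ∀ i, Set.MapsTo (toEnd ℂ H V x) ↑(N i) ↑(N i) := fun _ _ ↦ LieSubmodule.lie_mem _
  have h₃ : genWeightSpaceChain V α χ p q = ⨆ i ∈ Finset.Ioo p q, N i := by
    simp_rw [N, genWeightSpaceChain_def', LieSubmodule.iSup_toSubmodule]
  have h4 := trace_toEnd_genWeightSpaceChain_eq_zero V α χ p q hp hq hx
  rw [← LieSubmodule.toEnd_restrict_eq_toEnd] at h4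
  subst N
  erw [LinearMap.trace_eq_sum_trace_restrict_of_eq_biSup _ h₁ h₂ (genWeightSpaceChain V α χ p q) h₃] at h4
  simp_rw [LieSubmodule.toEnd_restrict_eq_toEnd] at h4
  rw [← h4]
  refine Finset.sum_congr rfl fun k _ => ?_
  have h5 := trace_toEnd_genWeightSpace ℂ H V (k • α + χ) x
  refine Eq.trans ?_ h5.symm
  simp [mul_add]

/-- the change of the sign -/
theorem flip_wt {α χ : H → ℂ} (hα : α ≠ 0) {x : H} (hx : x ∈ corootSpace α) (h2 : α x = 2)
    (hχ : genWeightSpace V χ ≠ ⊥) (hs : (χ x).re ≠ 0) : ∃ i : ℤ, genWeightSpace V (i • α + χ) ≠ ⊥ ∧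
      SignType.sign ((i • α + χ) x).re = -SignType.sign (χ x).re := by
  obtain ⟨p, hp, q, hq, hsum⟩ := chain_sum (V := V) (χ := χ) hα hx
  have hre : ∑ i ∈ Finset.Ioo p q, (finrank ℂ (genWeightSpace V (i • α + χ)) : ℝ) * ((i : ℝ) * 2 + (χ x).re) = 0 := by
    have h3 := congrArg Complex.re hsum
    rw [Complex.re_sum, Complex.zero_re] at h3
    rw [← h3]
    refine Finset.sum_congr rfl fun i _ => ?_
    rw [h2, Complex.mul_re, Complex.natCast_re, Complex.natCast_im, zero_mul, sub_zero, Complex.add_re, Complex.mul_re,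
      Complex.intCast_re, Complex.intCast_im, zero_mul, sub_zero]
    norm_num
  have hval : ∀ i : ℤ, ((i • α + χ) x).re = (i : ℝ) * 2 + (χ x).re := by
    intro i
    rw [Pi.add_apply, Pi.smul_apply, h2, Complex.add_re, zsmul_eq_mul, Complex.mul_re, Complex.intCast_re,
      Complex.intCast_im, zero_mul, sub_zero]
    norm_num
  have hd : ∀ i : ℤ, (finrank ℂ (genWeightSpace V (i • α + χ)) : ℝ) ≠ 0 → genWeightSpace V (i • α + χ) ≠ ⊥ := by
    intro i hi h
    apply hi
    rw [h]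
    have : finrank ℂ (⊥ : LieSubmodule ℂ H V) = 0 := finrank_bot ℂ V
    exact_mod_cast this
  have h0 : (0 : ℝ) < (finrank ℂ (genWeightSpace V ((0 : ℤ) • α + χ)) : ℝ) := by
    rw [zero_smul, zero_add]
    have h4 : Nontrivial (genWeightSpace V χ) := by rwa [LieSubmodule.nontrivial_iff_ne_bot]
    exact_mod_cast finrank_pos
  have hmem : (0 : ℤ) ∈ Finset.Ioo p q := Finset.mem_Ioo.2 ⟨hp, hq⟩
  rcases lt_or_gt_of_ne hs with h | h
  · -- negative
    obtain ⟨i, _, hi1, hi2⟩ : ∃ i ∈ Finset.Ioo p q, (finrank ℂ (genWeightSpace V (i • α + χ)) : ℝ) ≠ 0 ∧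
        0 < (i : ℝ) * 2 + (χ x).re := by
      by_contra hcon
      push Not at hcon
      have h4 : ∑ i ∈ Finset.Ioo p q, (finrank ℂ (genWeightSpace V (i • α + χ)) : ℝ) * ((i : ℝ) * 2 + (χ x).re) < 0 := by
        refine Finset.sum_neg' (fun i hi => ?_) ⟨0, hmem, ?_⟩
        · by_cases h5 : (finrank ℂ (genWeightSpace V (i • α + χ)) : ℝ) = 0
          · rw [h5, zero_mul]
          · exact mul_nonpos_of_nonneg_of_nonpos (Nat.cast_nonneg _) (hcon i hi h5)
        · refine mul_neg_of_pos_of_neg h0 ?_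
          rw [Int.cast_zero, zero_mul, zero_add]
          exact h
      exact absurd hre h4.ne
    refine ⟨i, hd i hi1, ?_⟩
    rw [hval, sign_pos hi2, sign_neg h]
    rfl
  · obtain ⟨i, _, hi1, hi2⟩ : ∃ i ∈ Finset.Ioo p q, (finrank ℂ (genWeightSpace V (i • α + χ)) : ℝ) ≠ 0 ∧
        (i : ℝ) * 2 + (χ x).re < 0 := by
      by_contra hcon
      push Not at hcon
      have h4 : 0 < ∑ i ∈ Finset.Ioo p q, (finrank ℂ (genWeightSpace V (i • α + χ)) : ℝ) * ((i : ℝ) * 2 + (χ x).re) := by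
        refine Finset.sum_pos' (fun i hi => ?_) ⟨0, hmem, ?_⟩
        · by_cases h5 : (finrank ℂ (genWeightSpace V (i • α + χ)) : ℝ) = 0
          · rw [h5, zero_mul]
          · exact mul_nonneg (Nat.cast_nonneg _) (hcon i hi h5)
        · refine mul_pos h0 ?_
          rw [Int.cast_zero, zero_mul, zero_add]
          exact h
      exact absurd hre h4.ne'
    refine ⟨i, hd i hi1, ?_⟩
    rw [hval, sign_neg hi2, sign_pos h]

end Pool.Agent.KS6_11.S
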